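import Pool.Agent.U737.MN.Stm
import Pool.Agent.TH9.J3098

/-!
# Project MN, package SqBad: valuations at a totally split prime
-/

set_option autoImplicit false

open NumberField UniqueFactorizationMonoid

namespace Pool.Agent.U178.MN

open Pool.Agent.U737.MN
open Pool.Agent.TH9.J3098 (v v_mul v_prod v_zero)

section

variable {R : Type} [CommRing R] [IsDedekindDomain R]

lemma v_mono (P : Ideal R) {I J : Ideal R} (hI : I ≠ ⊥) (hIJ : I ≤ J) : v P J ≤ v P I := by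
  classical
  have hJ : J ≠ ⊥ := by
    rintro rfl
    exact hI (le_bot_iff.mp hIJ)
  unfold v
  exact Multiset.count_le_of_le P ((dvd_iff_normalizedFactors_le_normalizedFactors hJ hI).mp
    (Ideal.dvd_iff_le.mpr hIJ))

lemma v_pos (P : Ideal R) {I : Ideal R} (hP : P.IsPrime) (hI : I ≠ ⊥) (hIP : I ≤ P) :
    1 ≤ v P I := by
  classical
  unfold v
  exact Multiset.one_le_count_iff_mem.mpr ((Ideal.mem_normalizedFactors_iff hI).mpr ⟨hP, hIP⟩)

end

theorem ram_one {K N : Type} [Field K] [NumberField K] [Field N] [NumberField N] [Algebra K N]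
    {p : Ideal (𝓞 K)} (hp : p ∈ spl K N) {Q : Ideal (𝓞 N)} (hQ : Q ∈ p.primesOver (𝓞 N)) :
    v Q (p.map (algebraMap (𝓞 K) (𝓞 N))) = 1 := by
  classical
  obtain ⟨hp1, hp0, hcard⟩ := hp
  have := hp1
  have : p.IsMaximal := hp1.isMaximal hp0
  have hsum := Ideal.sum_ramification_inertia (𝓞 N) K N hp0
  have hc : (IsDedekindDomain.primesOverFinset p (𝓞 N)).card = Module.finrank K N := by
    rw [← hcard, ← IsDedekindDomain.coe_primesOverFinset hp0 (𝓞 N), Set.ncard_coe_finset]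
  have hone : ∀ Q ∈ IsDedekindDomain.primesOverFinset p (𝓞 N),
      1 ≤ Ideal.ramificationIdx' p Q * Ideal.inertiaDeg' p Q := by
    intro Q hQ
    have hQ' := (IsDedekindDomain.mem_primesOverFinset_iff hp0 (𝓞 N)).mp hQ
    have : Q.IsPrime := hQ'.1
    have : Q.LiesOver p := hQ'.2
    refine Right.one_le_mul ?_ ?_
    · exact Nat.pos_iff_ne_zero.mpr <|
        Ideal.IsDedekindDomain.ramificationIdx'_ne_zero_of_liesOver _ hp0
    · exact Nat.pos_iff_ne_zero.mpr <| Ideal.inertiaDeg'_ne_zero p Q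
  have hPf : Q ∈ IsDedekindDomain.primesOverFinset p (𝓞 N) :=
    (IsDedekindDomain.mem_primesOverFinset_iff hp0 (𝓞 N)).mpr hQ
  have heq : Ideal.ramificationIdx' p Q * Ideal.inertiaDeg' p Q = 1 := by
    by_contra hcon
    have h2 : 1 < Ideal.ramificationIdx' p Q * Ideal.inertiaDeg' p Q :=
      lt_of_le_of_ne (hone Q hPf) (Ne.symm hcon)
    have h3 : ∑ Q ∈ IsDedekindDomain.primesOverFinset p (𝓞 N), 1 <
        ∑ Q ∈ IsDedekindDomain.primesOverFinset p (𝓞 N),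
          Ideal.ramificationIdx' p Q * Ideal.inertiaDeg' p Q :=
      Finset.sum_lt_sum hone ⟨Q, hPf, h2⟩
    rw [hsum, Finset.sum_const, smul_eq_mul, mul_one, hc] at h3
    exact lt_irrefl _ h3
  have he : Ideal.ramificationIdx' p Q = 1 := Nat.eq_one_of_mul_eq_one_right heq
  have : Q.LiesOver p := hQ.2
  have hmap : p.map (algebraMap (𝓞 K) (𝓞 N)) ≠ ⊥ := by
    intro h
    apply hp0
    rwa [Ideal.map_eq_bot_iff_of_injective (FaithfulSMul.algebraMap_injective (𝓞 K) (𝓞 N))] at h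
  have hQ0 : Q ≠ ⊥ := by
    rintro rfl
    apply hp0
    rw [hQ.2.over, Ideal.under_def]
    exact Ideal.comap_bot_of_injective _ (FaithfulSMul.algebraMap_injective (𝓞 K) (𝓞 N))
  rw [Ideal.IsDedekindDomain.ramificationIdx'_eq_normalizedFactors_count hmap hQ.1 hQ0] at he
  unfold v
  convert he

theorem t_SqBad (hdown : SplDown) : SqBad := by
  classical
  intro K M N _ _ _ _ _ _ _ _ _ _ _ α 𝔡 𝔠 S hα hsq hdc hS hprod
  refine ⟨hsq, fun p hps => ?_⟩
  rintro ⟨P, ⟨hPp, hPd⟩, huniq⟩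
  obtain ⟨φ₀, hφ₀⟩ := hS
  obtain ⟨hp, hp0, hcard⟩ := hps
  have hPprime : P.IsPrime := hPp.1
  have hPover : P.LiesOver p := hPp.2
  let g : (M →ₐ[K] N) → (𝓞 M →ₐ[𝓞 K] 𝓞 N) := fun φ => RingOfIntegers.mapAlgHom φ
  have hginj : ∀ φ : M →ₐ[K] N, Function.Injective (g φ) := by
    intro φ x y hxy
    apply RingOfIntegers.coe_injective
    have h1 : φ (x : M) = φ (y : M) := congrArg (fun z : 𝓞 N => (z : N)) hxy
    exact φ.toRingHom.injective h1
  -- the primes over p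
  have hmem : ∀ (φ : M →ₐ[K] N) (Q : Ideal (𝓞 N)), Q ∈ p.primesOver (𝓞 N) →
      Q.comap (g φ) ∈ p.primesOver (𝓞 M) := by
    intro φ Q hQ
    have hQ1 : Q.IsPrime := hQ.1
    have hQ2 : Q.LiesOver p := hQ.2
    refine ⟨Ideal.comap_isPrime _ _, ⟨?_⟩⟩
    rw [hQ2.over]
    ext x
    simp only [Ideal.under_def, Ideal.mem_comap]
    rw [AlgHom.commutes]
  -- primes over a prime of M, for an arbitrary embedding
  have hex : ∀ (φ : M →ₐ[K] N) (P' : Ideal (𝓞 M)), P' ∈ p.primesOver (𝓞 M) →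
      ∃ Q ∈ p.primesOver (𝓞 N), Q.comap (g φ) = P' := by
    intro φ P' hP'
    have hP'1 : P'.IsPrime := hP'.1
    let _ : Algebra (𝓞 M) (𝓞 N) := (g φ).toRingHom.toAlgebra
    have : Algebra.IsIntegral (𝓞 M) (𝓞 N) := by
      refine ⟨fun x => ?_⟩
      have h1 : IsIntegral ℤ x := Algebra.IsIntegral.isIntegral x
      exact h1.tower_top
    obtain ⟨Q, -, hQ1, hQ2⟩ := Ideal.exists_ideal_over_prime_of_isIntegral P' (⊥ : Ideal (𝓞 N)) (by
      have h1 : (⊥ : Ideal (𝓞 N)).comap (algebraMap (𝓞 M) (𝓞 N)) = ⊥ :=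
        Ideal.comap_bot_of_injective _ (hginj φ)
      rw [h1]
      exact bot_le)
    have hQ3 : Q.comap (g φ) = P' := hQ2
    refine ⟨Q, ⟨hQ1, ⟨?_⟩⟩, hQ3⟩
    rw [hP'.2.over, ← hQ3]
    ext x
    simp only [Ideal.under_def, Ideal.mem_comap]
    rw [AlgHom.commutes]
  obtain ⟨Q, hQp, hQP⟩ := hex φ₀ P hPp
  have hfin : Nat.card (M →ₐ[K] N) ≤ Module.finrank K M := card_algHom_le_finrank K M N
  have hinj : ∀ φ ψ : M →ₐ[K] N, Q.comap (g φ) = Q.comap (g ψ) → φ = ψ := by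
    let Φ : (M →ₐ[K] N) → p.primesOver (𝓞 M) := fun φ => ⟨Q.comap (g φ), hmem _ _ hQp⟩
    have hsurj : Function.Surjective Φ := by
      rintro ⟨P', hP'⟩
      let ι : M →ₐ[K] N := IsScalarTower.toAlgHom K M N
      obtain ⟨Q', hQ', hQ'P⟩ := hex ι P' hP'
      obtain ⟨σ, hσ⟩ := Ideal.exists_comap_galRestrict_eq (𝓞 K) K N (𝓞 N) hQp hQ'
      refine ⟨σ.toAlgHom.comp ι, Subtype.ext ?_⟩
      change Q.comap (g (σ.toAlgHom.comp ι)) = P'
      rw [← hQ'P, ← hσ]
      ext x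
      simp only [Ideal.mem_comap]
      have h1 : g (σ.toAlgHom.comp ι) x = galRestrict (𝓞 K) K N (𝓞 N) σ (g ι x) := by
        apply RingOfIntegers.coe_injective
        exact (algebraMap_galRestrict_apply (𝓞 K) σ (g ι x)).symm
      rw [h1]
    have hc : Set.ncard (p.primesOver (𝓞 M)) = Module.finrank K M :=
      (hdown K M N ⟨hp, hp0, hcard⟩).2.2
    have hb : Function.Bijective Φ := by
      refine hsurj.bijective_of_nat_card_le ?_
      rw [Nat.card_coe_set_eq, hc]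
      exact hfin
    intro σ τ h
    exact hb.1 (Subtype.ext h)
  have hPd' : 𝔡 ≤ P := Ideal.dvd_iff_le.mp hPd
  have hspan : Ideal.span {α} ≠ ⊥ := by
    rw [Ne, Ideal.span_singleton_eq_bot]
    exact hα
  have hd0 : 𝔡 ≠ ⊥ := by
    rintro rfl
    apply hspan
    rw [hdc, Ideal.bot_mul]
  have hc0 : 𝔠 ≠ ⊥ := by
    rintro rfl
    apply hspan
    rw [hdc]
    simp [pow_two]
  have hmap0 : ∀ (φ : M →ₐ[K] N) (I : Ideal (𝓞 M)), I ≠ ⊥ → I.map (g φ) ≠ ⊥ := by
    intro φ I hI h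
    apply hI
    rw [Ideal.map_eq_bot_iff_of_injective (hginj φ)] at h
    exact h
  have hP0 : P ≠ ⊥ := by
    rintro rfl
    exact hd0 (le_bot_iff.mp hPd')
  -- the valuation of the squarefree part
  have hcnt0 : v Q (𝔡.map (g φ₀)) = 1 := by
    obtain ⟨𝔡', rfl⟩ := hPd
    have hd'0 : 𝔡' ≠ ⊥ := by
      rintro rfl
      apply hd0
      simp
    have h1 : ¬ 𝔡' ≤ P := by
      intro h
      obtain ⟨X, rfl⟩ := Ideal.dvd_iff_le.mpr h
      have h2 : IsUnit P := hsq P ⟨X, by ring⟩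
      exact hPprime.ne_top ((Ideal.isUnit_iff).mp h2)
    rw [Ideal.map_mul, v_mul _ (hmap0 _ _ hP0) (hmap0 _ _ hd'0),
      v_zero Q (𝔡'.map (g φ₀)) (hmap0 _ _ hd'0) (by
        rw [Ideal.map_le_iff_le_comap, hQP]
        exact h1), add_zero]
    refine le_antisymm ?_ (v_pos Q hQp.1 (hmap0 _ _ hP0) (by
      rw [Ideal.map_le_iff_le_comap, hQP]))
    have hpmap : p.map (algebraMap (𝓞 K) (𝓞 N)) ≠ ⊥ := by
      intro h
      apply hp0
      rwa [Ideal.map_eq_bot_iff_of_injective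
        (FaithfulSMul.algebraMap_injective (𝓞 K) (𝓞 N))] at h
    refine (v_mono Q hpmap ?_).trans (ram_one ⟨hp, hp0, hcard⟩ hQp).le
    rw [Ideal.map_le_iff_le_comap]
    intro x hx
    rw [Ideal.mem_comap, ← (g φ₀).commutes x]
    refine Ideal.mem_map_of_mem (g φ₀) ?_
    have h2 : x ∈ P.under (𝓞 K) := by
      rw [← hPover.over]
      exact hx
    exact h2
  have hcnt : ∀ φ : M →ₐ[K] N, v Q (𝔡.map (g φ)) = if φ = φ₀ then 1 else 0 := by
    intro φ
    by_cases hφ : φ = φ₀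
    · rw [if_pos hφ, hφ]
      exact hcnt0
    · rw [if_neg hφ]
      refine v_zero _ _ (hmap0 _ _ hd0) ?_
      intro h
      rw [Ideal.map_le_iff_le_comap] at h
      have h3 : Q.comap (g φ) = P := huniq _ ⟨hmem _ _ hQp, Ideal.dvd_iff_le.mpr h⟩
      exact hφ (hinj _ _ (h3.trans hQP.symm))
  -- the product is a square
  obtain ⟨b, hb⟩ := hprod
  have hbint : IsIntegral ℤ b := by
    have h1 : IsIntegral ℤ (b ^ 2) := by
      rw [pow_two, ← hb]
      refine IsIntegral.prod _ fun φ _ => ?_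
      exact map_isIntegral_int φ.toRingHom α.2
    exact IsIntegral.of_pow (by norm_num) h1
  obtain ⟨β, hβ⟩ : ∃ β : 𝓞 N, (β : N) = b := ⟨⟨b, hbint⟩, rfl⟩
  have hprod2 : ∏ φ ∈ S, g φ α = β * β := by
    apply RingOfIntegers.coe_injective
    rw [map_prod, map_mul, show algebraMap (𝓞 N) N β = b from hβ, ← hb]
    rfl
  have hI0 : ∀ φ : M →ₐ[K] N, (Ideal.span {α}).map (g φ) ≠ ⊥ := fun φ => hmap0 φ _ hspan
  have h1 : ∏ φ ∈ S, (Ideal.span {α}).map (g φ) = Ideal.span {β} * Ideal.span {β} := by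
    rw [Ideal.span_singleton_mul_span_singleton, ← hprod2, ← Ideal.prod_span_singleton]
    refine Finset.prod_congr rfl fun φ _ => ?_
    rw [Ideal.map_span, Set.image_singleton]
  have hβ0 : Ideal.span {β} ≠ ⊥ := by
    intro h
    have h4 : ∏ φ ∈ S, (Ideal.span {α}).map (g φ) ≠ 0 :=
      Finset.prod_ne_zero_iff.mpr fun φ _ => hI0 φ
    rw [h1, h] at h4
    exact h4 (by simp)
  have h2 : v Q (∏ φ ∈ S, (Ideal.span {α}).map (g φ)) =
      v Q (Ideal.span {β}) + v Q (Ideal.span {β}) := by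
    rw [h1, v_mul _ hβ0 hβ0]
  rw [v_prod _ _ _ hI0] at h2
  have h3 : ∀ φ ∈ S, v Q ((Ideal.span {α}).map (g φ)) =
      (if φ = φ₀ then 1 else 0) + 2 * v Q (𝔠.map (g φ)) := by
    intro φ _
    rw [hdc, Ideal.map_mul, Ideal.map_pow, pow_two, v_mul _ (hmap0 _ _ hd0)
      (mul_ne_zero (hmap0 _ _ hc0) (hmap0 _ _ hc0)), v_mul _ (hmap0 _ _ hc0) (hmap0 _ _ hc0), hcnt]
    ring
  rw [Finset.sum_congr rfl h3, Finset.sum_add_distrib, Finset.sum_ite_eq', if_pos hφ₀,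
    ← Finset.mul_sum] at h2
  omega

end Pool.Agent.U178.MN
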